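import Pool.Agent.Y838.EV.Main

set_option autoImplicit false

/-!
# The number of `n ≤ x` for which (weak) evasiveness fails
-/

namespace Pool.Agent.Y838.EV

open Filter

variable {m : ℕ}

theorem part_one (hmain : ∀ k r : ℕ, 0 < r → HasFun (m ^ k * r) ((m - 1) ^ k * r))
    (k n : ℕ) (hn : 0 < n) (hd : m ^ k ∣ n) :
    ∃ d, HasFun n d ∧ m ^ k * d = (m - 1) ^ k * n := by
  obtain ⟨r, rfl⟩ := hd
  have hr : 0 < r := by
    rcases Nat.eq_zero_or_pos r with h | h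
    · subst h
      simp at hn
    · exact h
  exact ⟨(m - 1) ^ k * r, hmain k r hr, by ring⟩

theorem card_multiples (a x : ℕ) (ha : 0 < a) (Q : ℕ → Prop) [DecidablePred Q]
    (hQ : ∀ j, 0 < j → a * j ≤ x → Q (a * j)) :
    x / a ≤ ((Finset.Icc 1 x).filter Q).card := by
  have h1 : (Finset.Icc 1 (x / a)).image (fun j => a * j) ⊆ (Finset.Icc 1 x).filter Q := by
    intro n hn
    obtain ⟨j, hj, rfl⟩ := Finset.mem_image.mp hn
    obtain ⟨h1, h2⟩ := Finset.mem_Icc.mp hj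
    have h3 : a * j ≤ x := (Nat.mul_le_mul_left a h2).trans (Nat.mul_div_le x a)
    rw [Finset.mem_filter, Finset.mem_Icc]
    exact ⟨⟨Nat.mul_pos ha h1, h3⟩, hQ j h1 h3⟩
  have h2 := Finset.card_le_card h1
  rw [Finset.card_image_of_injective _ (fun i j h => Nat.eq_of_mul_eq_mul_left ha h)] at h2
  simpa using h2

open Classical in
theorem part_two (hm : 2 ≤ m)
    (hmain : ∀ k r : ℕ, 0 < r → HasFun (m ^ k * r) ((m - 1) ^ k * r)) (x : ℕ) :
    x / m ≤ ((Finset.Icc 1 x).filter fun n => ∃ d < n, HasFun n d).card := by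
  apply card_multiples m x (by omega)
  intro j hj _
  have h := hmain 1 j hj
  rw [pow_one, pow_one] at h
  exact ⟨(m - 1) * j, Nat.mul_lt_mul_of_pos_right (by omega) hj, h⟩

open Classical in
theorem part_three (hm : 2 ≤ m)
    (hmain : ∀ k r : ℕ, 0 < r → HasFun (m ^ k * r) ((m - 1) ^ k * r)) (η : ℝ) (hη : 0 < η) :
    ∃ ε : ℝ, 0 < ε ∧ ∃ x₀ : ℕ, ∀ x : ℕ, x₀ ≤ x →
      (x : ℝ) ^ (1 - η) ≤
        ((Finset.Icc 1 x).filter fun n : ℕ => ∃ d : ℕ, (d : ℝ) < (n : ℝ) ^ (1 - ε) ∧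
          HasFun n d).card := by
  -- reduce to `η ≤ 1`
  wlog hη1 : η ≤ 1 generalizing η with H
  · obtain ⟨ε, hε, x₀, h⟩ := H 1 one_pos le_rfl
    refine ⟨ε, hε, max x₀ 1, fun x hx => ?_⟩
    have hx1 : (1 : ℝ) ≤ x := by exact_mod_cast (le_max_right x₀ 1).trans hx
    exact (Real.rpow_le_rpow_of_exponent_le hx1 (by linarith)).trans
      (h x ((le_max_left _ _).trans hx))
  have hmR : (2 : ℝ) ≤ m := by exact_mod_cast hm
  have hm0 : (0 : ℝ) < m := by linarith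
  set L : ℝ := Real.log m with hL
  have hLpos : 0 < L := Real.log_pos (by linarith)
  set q : ℝ := ((m : ℝ) - 1) / m with hq
  have hq0 : 0 < q := div_pos (by linarith) hm0
  have hq1 : q < 1 := by rw [hq, div_lt_one hm0]; linarith
  have hq2 : 1 / 2 ≤ q := by
    rw [hq, div_le_div_iff₀ (by norm_num) hm0]
    linarith
  have hlq : Real.log q < 0 := Real.log_neg hq0 hq1
  set δ : ℝ := -Real.log q / L with hδ
  have hδ0 : 0 < δ := div_pos (by linarith) hLpos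
  refine ⟨δ * η / 4, by positivity, ?_⟩
  have hev : ∀ᶠ x : ℕ in atTop, (2 : ℝ) < (x : ℝ) ^ (η / 2) ∧ (2 : ℝ) < (x : ℝ) ^ (δ * η / 4) ∧
      1 ≤ x := by
    have h1 := ((tendsto_rpow_atTop (show 0 < η / 2 by positivity)).comp
      tendsto_natCast_atTop_atTop).eventually_gt_atTop (2 : ℝ)
    have h2 := ((tendsto_rpow_atTop (show 0 < δ * η / 4 by positivity)).comp
      tendsto_natCast_atTop_atTop).eventually_gt_atTop (2 : ℝ)
    filter_upwards [h1, h2, eventually_ge_atTop 1] with x a b c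
    exact ⟨a, b, c⟩
  obtain ⟨x₀, hx₀⟩ := eventually_atTop.mp hev
  refine ⟨x₀, fun x hx => ?_⟩
  obtain ⟨ha, hb, hx1⟩ := hx₀ x hx
  have hxR : (1 : ℝ) ≤ x := by exact_mod_cast hx1
  have hx0 : (0 : ℝ) < x := by linarith
  set lx : ℝ := Real.log x with hlx
  have hlx0 : 0 ≤ lx := Real.log_nonneg hxR
  set k : ℕ := ⌊η / 2 * lx / L⌋₊ with hk
  have hk1 : (k : ℝ) ≤ η / 2 * lx / L := Nat.floor_le (by positivity)
  have hk2 : η / 2 * lx / L < k + 1 := Nat.lt_floor_add_one _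
  -- `m ^ k ≤ x ^ (η / 2)`
  have hmk : ((m ^ k : ℕ) : ℝ) ≤ (x : ℝ) ^ (η / 2) := by
    rw [Nat.cast_pow, ← Real.rpow_natCast, Real.rpow_def_of_pos hm0, Real.rpow_def_of_pos hx0]
    apply Real.exp_le_exp.mpr
    rw [le_div_iff₀ hLpos] at hk1
    linarith
  have hmk0 : (0 : ℝ) < ((m ^ k : ℕ) : ℝ) := by positivity
  have hcount := card_multiples (m ^ k) x (by positivity)
    (fun n : ℕ => ∃ d : ℕ, (d : ℝ) < (n : ℝ) ^ (1 - δ * η / 4) ∧ HasFun n d) (by
    intro j hj hjx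
    refine ⟨(m - 1) ^ k * j, ?_, hmain k j hj⟩
    set n : ℕ := m ^ k * j with hn
    have hn0 : 0 < n := Nat.mul_pos (by positivity) hj
    have hnR : (0 : ℝ) < n := by exact_mod_cast hn0
    have hnx : (n : ℝ) ≤ x := by exact_mod_cast hjx
    have e1 : (((m - 1) ^ k * j : ℕ) : ℝ) = q ^ k * n := by
      rw [hn, hq]
      push_cast
      rw [Nat.cast_sub (by omega)]
      push_cast
      rw [div_pow]
      field_simp
    rw [e1]
    have e2 : q ^ k ≤ 2 * (x : ℝ) ^ (-(δ * η / 2)) := by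
      have h2 : q ^ (k : ℝ) ≤ q ^ (η / 2 * lx / L - 1) :=
        Real.rpow_le_rpow_of_exponent_ge hq0 hq1.le (by linarith)
      rw [Real.rpow_natCast, Real.rpow_sub hq0, Real.rpow_one] at h2
      have h3 : q ^ (η / 2 * lx / L) = (x : ℝ) ^ (-(δ * η / 2)) := by
        rw [Real.rpow_def_of_pos hq0, Real.rpow_def_of_pos hx0]
        congr 1
        rw [hδ, ← hlx]
        field_simp
      rw [h3] at h2
      have h4 : (x : ℝ) ^ (-(δ * η / 2)) / q ≤ 2 * (x : ℝ) ^ (-(δ * η / 2)) := by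
        rw [div_le_iff₀ hq0]
        have h5 : 0 ≤ (x : ℝ) ^ (-(δ * η / 2)) := by positivity
        nlinarith
      exact h2.trans h4
    have e3 : 2 * (x : ℝ) ^ (-(δ * η / 2)) < (x : ℝ) ^ (-(δ * η / 4)) := by
      have h5 : (x : ℝ) ^ (-(δ * η / 4)) = (x : ℝ) ^ (δ * η / 4) * (x : ℝ) ^ (-(δ * η / 2)) := by
        rw [← Real.rpow_add hx0]
        congr 1
        ring
      rw [h5]
      exact mul_lt_mul_of_pos_right hb (by positivity)
    have e4 : (x : ℝ) ^ (-(δ * η / 4)) ≤ (n : ℝ) ^ (-(δ * η / 4)) :=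
      Real.rpow_le_rpow_of_nonpos hnR hnx (by
        have : 0 < δ * η / 4 := by positivity
        linarith)
    calc q ^ k * n < (n : ℝ) ^ (-(δ * η / 4)) * n :=
          mul_lt_mul_of_pos_right (lt_of_le_of_lt e2 (lt_of_lt_of_le e3 e4)) hnR
      _ = (n : ℝ) ^ (1 - δ * η / 4) := by
          rw [show 1 - δ * η / 4 = -(δ * η / 4) + 1 by ring, Real.rpow_add hnR, Real.rpow_one])
  have hcR : ((x / m ^ k : ℕ) : ℝ) ≤
      (((Finset.Icc 1 x).filter fun n : ℕ => ∃ d : ℕ, (d : ℝ) < (n : ℝ) ^ (1 - δ * η / 4) ∧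
        HasFun n d).card : ℝ) := Nat.cast_le.mpr hcount
  refine le_trans ?_ hcR
  have h6 : (x : ℝ) / ((m ^ k : ℕ) : ℝ) - 1 < ((x / m ^ k : ℕ) : ℝ) := by
    have h7 : x < m ^ k * (x / m ^ k + 1) := Nat.lt_mul_div_succ x (by positivity)
    have h8 : (x : ℝ) < ((m ^ k : ℕ) : ℝ) * (((x / m ^ k : ℕ) : ℝ) + 1) := by exact_mod_cast h7
    rw [sub_lt_iff_lt_add, div_lt_iff₀ hmk0]
    linarith
  have h9 : (x : ℝ) ^ (1 - η / 2) ≤ (x : ℝ) / ((m ^ k : ℕ) : ℝ) := by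
    rw [le_div_iff₀ hmk0]
    calc (x : ℝ) ^ (1 - η / 2) * ((m ^ k : ℕ) : ℝ) ≤ (x : ℝ) ^ (1 - η / 2) * (x : ℝ) ^ (η / 2) :=
          mul_le_mul_of_nonneg_left hmk (by positivity)
      _ = x := by
          rw [← Real.rpow_add hx0]
          norm_num
  have h10 : (x : ℝ) ^ (1 - η) + 1 ≤ (x : ℝ) ^ (1 - η / 2) := by
    have h11 : (x : ℝ) ^ (1 - η / 2) = (x : ℝ) ^ (1 - η) * (x : ℝ) ^ (η / 2) := by
      rw [← Real.rpow_add hx0]
      congr 1
      ring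
    have h12 : 1 ≤ (x : ℝ) ^ (1 - η) := Real.one_le_rpow hxR (by linarith)
    rw [h11]
    nlinarith
  linarith

end Pool.Agent.Y838.EV
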