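import Pool.Agent.H383R3.Evas

set_option autoImplicit false

/-!
# Non-evasive monotone transitive functions on many numbers of variables
-/

namespace Pool.Agent.Y838.EV

open Pool.Agent.H128R2.Evas

/-- `f` is computed by a decision tree of depth at most `k`, in the words of the frozen statement
of the problem: every predicate closed under the formation of decision trees holds for it. -/
def DepthLe {n : ℕ} (k : ℕ) (f : (Fin n → Bool) → Bool) : Prop :=
  ∀ P : ℕ → ((Fin n → Bool) → Bool) → Prop,
    (∀ (m : ℕ) (g : (Fin n → Bool) → Bool), (∀ x y, g x = g y) → P m g) →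
    (∀ (m : ℕ) (g : (Fin n → Bool) → Bool) (i : Fin n),
      P m (fun x => g (Function.update x i false)) →
      P m (fun x => g (Function.update x i true)) → P (m + 1) g) →
    P k f

/-- Some non-constant monotone function of `n` variables, invariant under a transitive group of
permutations of the variables, has decision tree complexity at most `k`. -/
def HasFun (n k : ℕ) : Prop :=
  ∃ f : (Fin n → Bool) → Bool, Monotone f ∧ (∃ x y, f x ≠ f y) ∧
    (∀ i j : Fin n, ∃ σ : Equiv.Perm (Fin n), σ i = j ∧ ∀ x : Fin n → Bool, f (x ∘ σ) = f x) ∧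
    DepthLe k f

/-- The tree for the disjunction of the variables in a list. -/
def orTree {W : Type} : List W → DT W
  | [] => DT.leaf false
  | a :: l => DT.node a (orTree l) (DT.leaf true)

theorem eval_orTree {W : Type} (l : List W) (x : W → Bool) :
    (orTree l).eval x = decide (∃ a ∈ l, x a = true) := by
  induction l with
  | nil => simp [orTree, DT.eval]
  | cons a l ih =>
    simp only [orTree, DT.eval, ih]
    cases h : x a <;> simp [h]

theorem depth_orTree {W : Type} (l : List W) : (orTree l).depth = l.length := by
  induction l with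
  | nil => rfl
  | cons a l ih => simp [orTree, DT.depth, ih]

/-- The disjunction over the second coordinate. -/
noncomputable def orr {W : Type} (r : ℕ) (x : W × Fin r → Bool) (w : W) : Bool := by
  classical exact decide (∃ i : Fin r, x (w, i) = true)

theorem orr_mono {W : Type} (r : ℕ) : Monotone (orr (W := W) r) := by
  classical
  intro x y h w
  unfold orr
  by_cases hx : ∃ i : Fin r, x (w, i) = true
  · obtain ⟨i, hi⟩ := hx
    have h2 : y (w, i) = true := by
      have h4 : x (w, i) ≤ y (w, i) := h (w, i)
      rw [hi] at h4
      exact Bool.eq_true_of_true_le h4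
    have h3 : ∃ i : Fin r, y (w, i) = true := ⟨i, h2⟩
    rw [decide_eq_true h3]
    exact Bool.le_true _
  · rw [decide_eq_false hx]
    exact Bool.false_le _

theorem exists_of_tree {m : ℕ} {V : Type} [Fintype V] (hm : Fintype.card V = m)
    (f : (V → Bool) → Bool) (hmono : Monotone f) (hf0 : f (fun _ => false) = false)
    (hf1 : f (fun _ => true) = true)
    (htr : ∀ i j : V, ∃ σ : Equiv.Perm V, σ i = j ∧ ∀ x : V → Bool, f (x ∘ σ) = f x)
    (T : DT V) (hT : ∀ x, T.eval x = f x) (k r : ℕ) (hr : 0 < r) :
    HasFun (m ^ k * r) (T.depth ^ k * r) := by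
  classical
  obtain ⟨t, ht, htd⟩ := pow_tree f T hT k
  have hcard : Fintype.card (PV V k × Fin r) = m ^ k * r := by
    rw [Fintype.card_prod, card_PV, hm, Fintype.card_fin]
  let e : PV V k × Fin r ≃ Fin (m ^ k * r) := Fintype.equivFinOfCardEq hcard
  let F : (PV V k × Fin r → Bool) → Bool := fun x => pow f k (orr r x)
  let S : PV V k → DT (PV V k × Fin r) := fun w => orTree ((List.finRange r).map fun i => (w, i))
  have hS : ∀ w, (S w).depth ≤ r := by
    intro w
    show (orTree _).depth ≤ r
    rw [depth_orTree]
    simp
  have hSe : ∀ w x, (S w).eval x = orr r x w := by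
    intro w x
    show (orTree _).eval x = _
    rw [eval_orTree]
    unfold orr
    congr 1
    apply propext
    constructor
    · rintro ⟨a, ha, hxa⟩
      obtain ⟨i, -, rfl⟩ := List.mem_map.mp ha
      exact ⟨i, hxa⟩
    · rintro ⟨i, hi⟩
      exact ⟨(w, i), List.mem_map.mpr ⟨i, List.mem_finRange i, rfl⟩, hi⟩
  have hFt : ∀ x, (DT.subst S t).eval x = F x := by
    intro x
    rw [DT.eval_subst, ht]
    show pow f k _ = pow f k _
    congr 1
    funext w
    exact hSe w x
  have hFd : (DT.subst S t).depth ≤ T.depth ^ k * r :=
    (DT.depth_subst S r hS t).trans (Nat.mul_le_mul_right _ htd)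
  have hor0 : orr (W := PV V k) r (fun _ => false) = fun _ => false := by
    funext w
    unfold orr
    simp
  have hor1 : orr (W := PV V k) r (fun _ => true) = fun _ => true := by
    funext w
    unfold orr
    exact decide_eq_true ⟨⟨0, hr⟩, rfl⟩
  refine ⟨fun x => F (fun w => x (e w)), ?_, ?_, ?_, ?_⟩
  · intro x y hxy
    exact pow_mono f hmono k (orr_mono r fun w => hxy (e w))
  · refine ⟨fun _ => false, fun _ => true, ?_⟩
    show pow f k (orr r fun _ => false) ≠ pow f k (orr r fun _ => true)
    rw [hor0, hor1, pow_const f false hf0, pow_const f true hf1]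
    decide
  · intro i j
    obtain ⟨σ, hσ, hσ'⟩ := pow_trans f htr k (e.symm i).1 (e.symm j).1
    let τ : Equiv.Perm (Fin r) := Equiv.swap (e.symm i).2 (e.symm j).2
    let ρ : Equiv.Perm (PV V k × Fin r) := Equiv.prodCongr σ τ
    refine ⟨(e.symm.trans ρ).trans e, ?_, ?_⟩
    · show e (ρ (e.symm i)) = j
      have h1 : ρ (e.symm i) = e.symm j := by
        show (σ (e.symm i).1, τ (e.symm i).2) = e.symm j
        rw [hσ, Equiv.swap_apply_left]
      rw [h1, e.apply_symm_apply]
    · intro x
      have h1 : ∀ y : PV V k × Fin r → Bool, F (y ∘ ρ) = F y := by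
        intro y
        show pow f k (orr r (y ∘ ρ)) = pow f k (orr r y)
        have h2 : orr r (y ∘ ρ) = (orr r y) ∘ σ := by
          funext w
          unfold orr
          apply decide_eq_decide.mpr
          constructor
          · rintro ⟨i, hi⟩
            exact ⟨τ i, hi⟩
          · rintro ⟨i, hi⟩
            refine ⟨τ.symm i, ?_⟩
            show y (σ w, τ (τ.symm i)) = true
            rw [Equiv.apply_symm_apply]
            exact hi
        rw [h2]
        exact hσ' _
      have h3 := h1 (fun w => x (e w))
      show F (fun w => x (((e.symm.trans ρ).trans e) (e w))) = F (fun w => x (e w))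
      rw [← h3]
      congr 1
      funext w
      show x (e (ρ (e.symm (e w)))) = x (e (ρ w))
      rw [e.symm_apply_apply]
  · intro P hc hs
    have h := Pool.Agent.H383R3.Evas.closure_tree P hc hs (DT.map e (DT.subst S t))
      (T.depth ^ k * r) (by rw [DT.depth_map]; exact hFd) ∅ (fun _ => false)
    simp only [Set.mem_empty_iff_false, if_false, DT.eval_map, hFt] at h
    exact h

/-- The main construction. -/
theorem main : ∃ m : ℕ, 2 ≤ m ∧ ∀ k r : ℕ, 0 < r → HasFun (m ^ k * r) ((m - 1) ^ k * r) := by
  obtain ⟨V, _, f, T, hm, hnc, htr, hT, hd⟩ := Pool.Agent.H571R3.Asm.exists_nonevasive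
  have hdep : 1 ≤ T.depth := by
    obtain ⟨x, y, hxy⟩ := hnc
    cases T with
    | leaf b => exact absurd ((hT x).symm.trans (hT y)) hxy
    | node v t0 t1 => simp [DT.depth]
  have hf0 : f (fun _ => false) = false := by
    by_contra h
    have h' : f (fun _ => false) = true := by simpa using h
    obtain ⟨x, y, hxy⟩ := hnc
    have key : ∀ z, f z = true := by
      intro z
      have := hm (show (fun _ => false) ≤ z from fun _ => Bool.false_le _)
      rw [h'] at this
      revert this
      cases f z <;> decide
    exact hxy ((key x).trans (key y).symm)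
  have hf1 : f (fun _ => true) = true := by
    by_contra h
    have h' : f (fun _ => true) = false := by simpa using h
    obtain ⟨x, y, hxy⟩ := hnc
    have key : ∀ z, f z = false := by
      intro z
      have := hm (show z ≤ (fun _ => true) from fun _ => Bool.le_true _)
      rw [h'] at this
      revert this
      cases f z <;> decide
    exact hxy ((key x).trans (key y).symm)
  refine ⟨Fintype.card V, by omega, fun k r hr => ?_⟩
  obtain ⟨g, h1, h2, h3, h4⟩ := exists_of_tree rfl f hm hf0 hf1 htr T hT k r hr
  refine ⟨g, h1, h2, h3, ?_⟩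
  -- monotonicity in the depth: rebuild with the larger bound
  have hle : T.depth ^ k * r ≤ (Fintype.card V - 1) ^ k * r :=
    Nat.mul_le_mul_right _ (Nat.pow_le_pow_left (by omega) _)
  obtain ⟨c, hc⟩ := Nat.exists_eq_add_of_le hle
  rw [hc]
  intro P hP1 hP2
  exact h4 (fun m g => P (m + c) g) (fun m g hg => hP1 _ g hg)
    (fun m g i ha hb => by
      have := hP2 (m + c) g i ha hb
      have e : m + c + 1 = m + 1 + c := by omega
      rw [e] at this
      exact this)

end Pool.Agent.Y838.EV
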